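import Pool.Agent.Work.MP_3bdf32_al.Main

namespace Pool.Agent.Results.MP_3bdf32_al.Decidable

open Pool.Agent.Work.MP_3bdf32_al

/-- There is one computable Boolean function which, given the rank `n ≥ 1` and a finite list `W` of
words in the letters `x_i^{±1}` (`i < n`; a letter is coded by the pair of its index and its sign),
returns `true` exactly when the subgroup of the free group of rank `n` generated by the words is the
fixed subgroup of some automorphism. -/
theorem result :
    ∃ f : ℕ × List (List (ℕ × Bool)) → Bool, Computable f ∧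
      ∀ (n : ℕ), 1 ≤ n → ∀ W : List (List (Fin n × Bool)),
        (f (n, W.map (List.map fun x => (x.1.val, x.2))) = true ↔
          ∃ φ : MulAut (FreeGroup (Fin n)), ∀ g : FreeGroup (Fin n),
            g ∈ Subgroup.closure {w | ∃ u ∈ W, w = FreeGroup.mk u} ↔ φ g = g) := by
  classical
  obtain ⟨f, hf, e⟩ := ComputablePred.computable_iff.1 computable_fixed
  refine ⟨fun p => f (p.1 - 1, p.2), hf.comp (((Primrec.nat_sub.comp Primrec.fst
    (Primrec.const 1)).pair Primrec.snd).to_comp), fun n hn W => ?_⟩
  obtain ⟨m, rfl⟩ : ∃ m, n = m + 1 := ⟨n - 1, by omega⟩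
  have := congrFun e (m, W.map (List.map fun x => (x.1.val, x.2)))
  simp only [Nat.add_sub_cancel]
  rw [← this]
  have s : {w | w ∈ (W.map (List.map fun x => (x.1.val, x.2))).map (ev m)} =
      {w | ∃ u ∈ W, w = FreeGroup.mk u} := by
    ext w
    simp only [List.map_map, List.mem_map, Set.mem_ofPred_eq, Function.comp, ev]
    refine exists_congr fun u => and_congr_right fun _ => ?_
    rw [eq_comm]
    refine Eq.congr_right (congrArg _ ?_)
    conv_rhs => rw [← List.map_id u]
    refine List.map_congr_left fun x _ => ?_
    simp [Nat.mod_eq_of_lt x.1.2]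
  simp only [Fixed, cl, s]

end Pool.Agent.Results.MP_3bdf32_al.Decidable
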